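import Mathlib

/-!
# The face relative interior can be empty when the quasi-relative interior is not

In the Hilbert space `ℓ²(ℝ × ℕ)` consider the closed convex set `C` of all `x` such that every
block `x(g, ·)` lies in the translate `B - a` of the closed unit ball `B` of `ℓ¹`, where
`a n = 2^(-n-1)`. Then `0` is in the quasi-relative interior of `C`, and the face relative interior
of `C` is empty.
-/

set_option autoImplicit false

open Set Filter Topology

namespace Pool.Agent.Results.MP_98aad6_an.FriEmptyQriNonempty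

section Definitions

variable {X : Type*} [AddCommGroup X] [Module ℝ X]

/-- `F` is a face of `C`: a convex subset of `C` such that whenever a point of `F` lies in the open
segment `(y, z)` with `y, z ∈ C`, both `y` and `z` are in `F`. -/
structure IsFace (C F : Set X) : Prop where
  convex : Convex ℝ F
  subset : F ⊆ C
  mem_of_openSegment : ∀ x ∈ F, ∀ y ∈ C, ∀ z ∈ C, x ∈ openSegment ℝ y z → y ∈ F ∧ z ∈ F

/-- The smallest face of `C` containing `x`: the intersection of all faces containing `x`. -/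
def Fmin (x : X) (C : Set X) : Set X := ⋂₀ {F : Set X | IsFace C F ∧ x ∈ F}

variable [TopologicalSpace X]

/-- The face relative interior of `C`. -/
def fri (C : Set X) : Set X := {x | x ∈ C ∧ C ⊆ closure (Fmin x C)}

/-- The cone generated by `C - x`. -/
def coneAt (C : Set X) (x : X) : Set X :=
  {v | ∃ α : ℝ, 0 ≤ α ∧ ∃ y ∈ C, v = α • (y - x)}

/-- The quasi-relative interior of `C`. -/
def qri (C : Set X) : Set X :=
  {x | x ∈ C ∧ ∃ S : Submodule ℝ X, closure (coneAt C x) = (S : Set X)}

end Definitions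

/-- The Hilbert space `ℓ²(ℝ × ℕ)`. -/
abbrev H : Type := lp (fun _ : ℝ × ℕ => ℝ) 2

/-- The sequence `1/2, 1/4, 1/8, ...`. -/
noncomputable def a (n : ℕ) : ℝ := 1 / 2 / 2 ^ n

lemma a_pos (n : ℕ) : 0 < a n := by unfold a; positivity

lemma hasSum_a : HasSum a 1 := hasSum_geometric_two' 1

/-- The closed convex set. -/
def C : Set H := {x | ∀ g : ℝ, ∀ s : Finset ℕ, ∑ n ∈ s, |a n + x (g, n)| ≤ 1}

lemma continuous_coord (i : ℝ × ℕ) : Continuous (fun x : H => x i) :=
  (lp.evalCLM ℝ (fun _ : ℝ × ℕ => ℝ) 2 i).continuous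

lemma isClosed_C : IsClosed C := by
  have : C = ⋂ g : ℝ, ⋂ s : Finset ℕ, {x : H | ∑ n ∈ s, |a n + x (g, n)| ≤ 1} := by
    ext x
    simp [C]
  rw [this]
  refine isClosed_iInter fun g => isClosed_iInter fun s => isClosed_le ?_ continuous_const
  exact continuous_finsetSum _ fun n _ => (continuous_const.add (continuous_coord (g, n))).abs

lemma convex_C : Convex ℝ C := by
  intro x hx y hy t u ht hu htu g s
  calc ∑ n ∈ s, |a n + (t • x + u • y) (g, n)|
      ≤ ∑ n ∈ s, (t * |a n + x (g, n)| + u * |a n + y (g, n)|) := by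
        refine Finset.sum_le_sum fun n _ => ?_
        have e : a n + (t • x + u • y) (g, n) = t * (a n + x (g, n)) + u * (a n + y (g, n)) := by
          have h1 : (t • x + u • y) (g, n) = t * x (g, n) + u * y (g, n) := rfl
          rw [h1]
          linear_combination (-a n) * htu
        rw [e]
        refine (abs_add_le _ _).trans ?_
        rw [abs_mul, abs_mul, abs_of_nonneg ht, abs_of_nonneg hu]
    _ = t * ∑ n ∈ s, |a n + x (g, n)| + u * ∑ n ∈ s, |a n + y (g, n)| := by
        rw [Finset.sum_add_distrib, Finset.mul_sum, Finset.mul_sum]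
    _ ≤ t * 1 + u * 1 := by
        gcongr
        · exact hx g s
        · exact hy g s
    _ = 1 := by rw [mul_one, mul_one, htu]

/-- A criterion for membership. -/
lemma mem_C_of_hasSum {x : H} (h : ∀ g : ℝ, ∃ b : ℝ, b ≤ 1 ∧ HasSum (fun n => |a n + x (g, n)|) b) :
    x ∈ C := by
  intro g s
  obtain ⟨b, hb, hs⟩ := h g
  exact (sum_le_hasSum s (fun _ _ => abs_nonneg _) hs).trans hb

lemma zero_mem_C : (0 : H) ∈ C := by
  refine mem_C_of_hasSum fun g => ⟨1, le_rfl, ?_⟩
  have : (fun n => |a n + (0 : H) (g, n)|) = a := by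
    funext n
    simp [abs_of_pos (a_pos n)]
  rw [this]
  exact hasSum_a

/-- The basis vectors. -/
noncomputable def e (g : ℝ) (n : ℕ) : H := lp.single 2 (g, n) (1 : ℝ)

lemma smul_e_apply (c : ℝ) (g g' : ℝ) (m n : ℕ) :
    (c • e g m) (g', n) = if g' = g ∧ n = m then c else 0 := by
  rw [lp.coeFn_smul, Pi.smul_apply, e, lp.single_apply, smul_eq_mul]
  by_cases h : g' = g ∧ n = m
  · obtain ⟨rfl, rfl⟩ := h
    simp
  · rw [if_neg h, Pi.single_eq_of_ne, mul_zero]
    intro h'
    exact h ⟨(Prod.ext_iff.1 h').1, (Prod.ext_iff.1 h').2⟩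

lemma w_mem (g : ℝ) : (-1 : ℝ) • e g 0 ∈ C := by
  refine mem_C_of_hasSum fun g' => ⟨1, le_rfl, ?_⟩
  have : (fun n => |a n + ((-1 : ℝ) • e g 0) (g', n)|) = a := by
    funext n
    rw [smul_e_apply]
    split_ifs with h
    · rw [h.2]
      norm_num [a]
    · rw [add_zero, abs_of_pos (a_pos n)]
  rw [this]
  exact hasSum_a

lemma neg_mem (g : ℝ) (m : ℕ) : (-a m) • e g m ∈ C := by
  refine mem_C_of_hasSum fun g' => ?_
  by_cases hg : g' = g
  · refine ⟨0 - a m + 1, by linarith [a_pos m], ?_⟩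
    have : (fun n => |a n + ((-a m) • e g m) (g', n)|) = Function.update a m 0 := by
      funext n
      rw [smul_e_apply]
      by_cases hn : n = m
      · rw [if_pos ⟨hg, hn⟩, hn, Function.update_self]
        simp
      · rw [if_neg (fun h => hn h.2), Function.update_of_ne hn, add_zero, abs_of_pos (a_pos n)]
    rw [this]
    exact hasSum_a.update m 0
  · refine ⟨1, le_rfl, ?_⟩
    have : (fun n => |a n + ((-a m) • e g m) (g', n)|) = a := by
      funext n
      rw [smul_e_apply, if_neg (fun h => hg h.1), add_zero, abs_of_pos (a_pos n)]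
    rw [this]
    exact hasSum_a

lemma diff_mem (g : ℝ) {m n : ℕ} (hmn : m ≠ n) : a n • e g m + (-a n) • e g n ∈ C := by
  refine mem_C_of_hasSum fun g' => ?_
  by_cases hg : g' = g
  · refine ⟨0 - (Function.update a m (a m + a n)) n + ((a m + a n) - a m + 1), ?_, ?_⟩
    · rw [Function.update_of_ne hmn.symm]
      linarith
    have : (fun k => |a k + (a n • e g m + (-a n) • e g n) (g', k)|) =
        Function.update (Function.update a m (a m + a n)) n 0 := by
      funext k
      rw [lp.coeFn_add, Pi.add_apply, smul_e_apply, smul_e_apply]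
      by_cases hk : k = n
      · rw [if_neg (fun h => hmn (h.2.symm.trans hk)), if_pos ⟨hg, hk⟩, hk, Function.update_self]
        simp
      · rw [if_neg (c := g' = g ∧ k = n) (fun h => hk h.2), Function.update_of_ne hk, add_zero]
        by_cases hk' : k = m
        · rw [if_pos ⟨hg, hk'⟩, hk', Function.update_self,
            abs_of_pos (add_pos (a_pos m) (a_pos n))]
        · rw [if_neg (fun h => hk' h.2), Function.update_of_ne hk', add_zero,
            abs_of_pos (a_pos k)]
    rw [this]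
    exact (hasSum_a.update m (a m + a n)).update n 0
  · refine ⟨1, le_rfl, ?_⟩
    have : (fun k => |a k + (a n • e g m + (-a n) • e g n) (g', k)|) = a := by
      funext k
      rw [lp.coeFn_add, Pi.add_apply, smul_e_apply, smul_e_apply, if_neg (fun h => hg h.1),
        if_neg (fun h => hg h.1), add_zero, add_zero, abs_of_pos (a_pos k)]
    rw [this]
    exact hasSum_a

/-! ### The cone generated by `C` is dense -/

/-- The cone generated by `C`. -/
abbrev K : Set H := coneAt C 0

lemma mem_K {c : ℝ} (hc : 0 ≤ c) {y : H} (hy : y ∈ C) : c • y ∈ K :=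
  ⟨c, hc, y, hy, by rw [sub_zero]⟩

lemma K_smul {c : ℝ} (hc : 0 ≤ c) {v : H} (hv : v ∈ K) : c • v ∈ K := by
  obtain ⟨α, hα, y, hy, rfl⟩ := hv
  exact ⟨c * α, mul_nonneg hc hα, y, hy, by rw [smul_smul]⟩

lemma K_zero : (0 : H) ∈ K := ⟨0, le_rfl, 0, zero_mem_C, by simp⟩

lemma K_add {v w : H} (hv : v ∈ K) (hw : w ∈ K) : v + w ∈ K := by
  obtain ⟨α, hα, y, hy, rfl⟩ := hv
  obtain ⟨β, hβ, z, hz, rfl⟩ := hw
  rcases eq_or_lt_of_le (add_nonneg hα hβ) with h | h
  · have h1 : α = 0 := by linarith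
    have h2 : β = 0 := by linarith
    rw [h1, h2, zero_smul, zero_smul, add_zero]
    exact K_zero
  · refine ⟨α + β, h.le, (α / (α + β)) • y + (β / (α + β)) • z,
      convex_C hy hz (by positivity) (by positivity) (by field_simp), ?_⟩
    rw [sub_zero, sub_zero, sub_zero, smul_add, smul_smul, smul_smul,
      mul_div_cancel₀ _ h.ne', mul_div_cancel₀ _ h.ne']

lemma K_sum {ι : Type*} (s : Finset ι) (f : ι → H) (h : ∀ i ∈ s, f i ∈ K) :
    ∑ i ∈ s, f i ∈ K := by
  classical
  induction s using Finset.induction_on with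
  | empty => simpa using K_zero
  | insert i s hi ih =>
    rw [Finset.sum_insert hi]
    exact K_add (h i (Finset.mem_insert_self _ _))
      (ih fun j hj => h j (Finset.mem_insert_of_mem hj))

lemma neg_e_mem (g : ℝ) (m : ℕ) : (-1 : ℝ) • e g m ∈ K := by
  have h := mem_K (inv_nonneg.2 (a_pos m).le) (neg_mem g m)
  rwa [smul_smul, mul_neg, inv_mul_cancel₀ (a_pos m).ne'] at h

lemma e_sub_e_mem (g : ℝ) {m n : ℕ} (hmn : m ≠ n) : e g m - e g n ∈ K := by
  have h := mem_K (inv_nonneg.2 (a_pos n).le) (diff_mem g hmn)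
  rwa [smul_add, smul_smul, smul_smul, mul_neg, inv_mul_cancel₀ (a_pos n).ne', one_smul,
    neg_one_smul, ← sub_eq_add_neg] at h

lemma norm_sum_e (g : ℝ) (m k : ℕ) :
    ‖∑ j ∈ Finset.range k, e g (m + 1 + j)‖ ^ 2 = k := by
  have inj : Set.InjOn (fun j : ℕ => ((g, m + 1 + j) : ℝ × ℕ)) (Finset.range k : Set ℕ) := by
    intro i _ j _ hij
    have := (Prod.ext_iff.1 hij).2
    simpa using this
  have h := lp.norm_sum_single (E := fun _ : ℝ × ℕ => ℝ) (p := 2) (by norm_num) (fun _ => (1 : ℝ))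
    ((Finset.range k).image fun j => (g, m + 1 + j))
  rw [Finset.sum_image (by exact_mod_cast inj), Finset.sum_image (by exact_mod_cast inj)] at h
  simpa [e] using h

lemma e_mem (g : ℝ) (m : ℕ) : e g m ∈ closure K := by
  rw [Metric.mem_closure_iff]
  intro ε hε
  obtain ⟨k, hk⟩ := exists_nat_gt (1 / ε ^ 2)
  have hk0 : (0 : ℝ) < k := lt_trans (by positivity) hk
  refine ⟨(k : ℝ)⁻¹ • ∑ j ∈ Finset.range k, (e g m - e g (m + 1 + j)),
    K_smul (by positivity) (K_sum _ _ fun j _ => e_sub_e_mem g (by omega)), ?_⟩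
  rw [Finset.sum_sub_distrib, Finset.sum_const, Finset.card_range, ← Nat.cast_smul_eq_nsmul ℝ,
    smul_sub, smul_smul, inv_mul_cancel₀ hk0.ne', one_smul, dist_eq_norm, sub_sub_cancel,
    norm_smul]
  have h1 := norm_sum_e g m k
  have h2 : (‖(k : ℝ)⁻¹‖ * ‖∑ j ∈ Finset.range k, e g (m + 1 + j)‖) ^ 2 < ε ^ 2 := by
    rw [mul_pow, h1, norm_inv, Real.norm_natCast, inv_pow, sq (k : ℝ), mul_inv, mul_assoc,
      inv_mul_cancel₀ hk0.ne', mul_one]
    rw [div_lt_iff₀ (by positivity)] at hk
    rw [inv_lt_iff_one_lt_mul₀ hk0]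
    linarith
  exact lt_of_pow_lt_pow_left₀ 2 hε.le h2

lemma closure_add {v w : H} (hv : v ∈ closure K) (hw : w ∈ closure K) : v + w ∈ closure K :=
  map_mem_closure₂ continuous_add hv hw fun _ ha _ hb => K_add ha hb

lemma closure_smul {c : ℝ} (hc : 0 ≤ c) {v : H} (hv : v ∈ closure K) : c • v ∈ closure K :=
  map_mem_closure (continuous_const_smul c) hv fun _ ha => K_smul hc ha

lemma smul_e_mem (c : ℝ) (g : ℝ) (m : ℕ) : c • e g m ∈ closure K := by
  rcases le_total 0 c with hc | hc
  · exact closure_smul hc (e_mem g m)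
  · have := closure_smul (neg_nonneg.2 hc) (subset_closure (neg_e_mem g m))
    rwa [smul_smul, mul_neg, mul_one, neg_neg] at this

lemma closure_K : closure K = Set.univ := by
  refine Set.eq_univ_of_forall fun x => ?_
  have h := lp.hasSum_single (E := fun _ : ℝ × ℕ => ℝ) (p := 2) (by norm_num) x
  refine isClosed_closure.mem_of_tendsto h (Eventually.of_forall fun s => ?_)
  classical
  induction s using Finset.induction_on with
  | empty => simpa using subset_closure K_zero
  | insert i s hi ih =>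
    rw [Finset.sum_insert hi]
    refine closure_add ?_ ih
    have : lp.single 2 i (x i) = x i • e i.1 i.2 := by
      rw [e, ← lp.single_smul, smul_eq_mul, mul_one]
    rw [this]
    exact smul_e_mem _ _ _

lemma zero_mem_qri : (0 : H) ∈ qri C :=
  ⟨zero_mem_C, ⊤, by rw [Submodule.top_coe]; exact closure_K⟩

/-! ### The faces -/

/-- The face at the block `g`. -/
def F (g : ℝ) : Set H := {y | y ∈ C ∧ ∑' n, (a n + y (g, n)) = 1}

lemma summable_abs {y : H} (hy : y ∈ C) (g : ℝ) : Summable fun n => |a n + y (g, n)| :=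
  summable_of_sum_le (fun _ => abs_nonneg _) (hy g)

lemma summable_blk {y : H} (hy : y ∈ C) (g : ℝ) : Summable fun n => a n + y (g, n) :=
  (summable_abs hy g).of_abs

lemma tsum_abs_le {y : H} (hy : y ∈ C) (g : ℝ) : ∑' n, |a n + y (g, n)| ≤ 1 :=
  (summable_abs hy g).tsum_le_of_sum_le (hy g)

lemma tsum_le_one {y : H} (hy : y ∈ C) (g : ℝ) : ∑' n, (a n + y (g, n)) ≤ 1 :=
  ((summable_blk hy g).tsum_le_tsum (fun _ => le_abs_self _) (summable_abs hy g)).trans
    (tsum_abs_le hy g)

lemma nonneg_of_mem_F {g : ℝ} {y : H} (hy : y ∈ F g) (n : ℕ) : 0 ≤ a n + y (g, n) := by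
  have h1 : ∑' n, (|a n + y (g, n)| - (a n + y (g, n))) ≤ 0 := by
    rw [(summable_abs hy.1 g).tsum_sub (summable_blk hy.1 g), hy.2]
    linarith [tsum_abs_le hy.1 g]
  have hs := (summable_abs hy.1 g).sub (summable_blk hy.1 g)
  have h2 := hs.le_tsum n (fun j _ => sub_nonneg.2 (le_abs_self _))
  have h3 : |a n + y (g, n)| ≤ a n + y (g, n) := by linarith
  exact (abs_nonneg _).trans h3

lemma tsum_comb {y z : H} (hy : y ∈ C) (hz : z ∈ C) (g : ℝ) {t u : ℝ} (htu : t + u = 1) :
    ∑' n, (a n + (t • y + u • z) (g, n)) =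
      t * ∑' n, (a n + y (g, n)) + u * ∑' n, (a n + z (g, n)) := by
  rw [← tsum_mul_left, ← tsum_mul_left, ← ((summable_blk hy g).mul_left t).tsum_add
    ((summable_blk hz g).mul_left u)]
  refine tsum_congr fun n => ?_
  have h1 : (t • y + u • z) (g, n) = t * y (g, n) + u * z (g, n) := rfl
  rw [h1]
  linear_combination (-a n) * htu

lemma isFace_F (g : ℝ) : IsFace C (F g) := by
  refine ⟨?_, fun y hy => hy.1, ?_⟩
  · intro y hy z hz t u ht hu htu
    refine ⟨convex_C hy.1 hz.1 ht hu htu, ?_⟩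
    rw [tsum_comb hy.1 hz.1 g htu, hy.2, hz.2, mul_one, mul_one, htu]
  · rintro x hx y hy z hz ⟨t, u, ht, hu, htu, rfl⟩
    have h := hx.2
    rw [tsum_comb hy hz g htu] at h
    have h1 := tsum_le_one hy g
    have h2 := tsum_le_one hz g
    refine ⟨⟨hy, ?_⟩, ⟨hz, ?_⟩⟩
    · nlinarith
    · nlinarith

lemma exists_block (x : H) : ∃ g : ℝ, ∀ n, x (g, n) = 0 := by
  have hs : Summable fun i => ‖x i‖ ^ 2 := by
    have := (lp.memℓp x).summable (by norm_num)
    simpa using this
  have hc : (Function.support fun i => ‖x i‖ ^ 2).Countable := hs.countable_support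
  have hc' : (Prod.fst '' (Function.support fun i => ‖x i‖ ^ 2)).Countable := hc.image _
  obtain ⟨g, hg⟩ : ∃ g, g ∉ (Prod.fst '' (Function.support fun i => ‖x i‖ ^ 2)) := by
    by_contra hall
    push Not at hall
    exact Cardinal.not_countable_real (hc'.mono fun g _ => hall g)
  refine ⟨g, fun n => ?_⟩
  by_contra hne
  refine hg ⟨(g, n), ?_, rfl⟩
  simp [hne]

lemma fri_eq_empty : fri C = ∅ := by
  refine Set.eq_empty_of_forall_notMem fun x hx => ?_
  obtain ⟨hxC, hx⟩ := hx
  obtain ⟨g, hg⟩ := exists_block x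
  have hxF : x ∈ F g := by
    refine ⟨hxC, ?_⟩
    simp only [hg, add_zero]
    exact hasSum_a.tsum_eq
  have h1 : Fmin x C ⊆ F g := Set.sInter_subset_of_mem ⟨isFace_F g, hxF⟩
  have h2 : closure (Fmin x C) ⊆ {y : H | 0 ≤ a 0 + y (g, 0)} :=
    closure_minimal (h1.trans fun y hy => nonneg_of_mem_F hy 0)
      (isClosed_le continuous_const (continuous_const.add (continuous_coord (g, 0))))
  have h3 := h2 (hx (w_mem g))
  simp only [Set.mem_ofPred_eq, smul_e_apply] at h3
  norm_num [a] at h3

/-- **Negative answer to Q1.** There is a closed convex set `C` in a real Hilbert space with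
`qri C ≠ ∅` and `fri C = ∅`. -/
theorem result : ∃ (X : Type) (_ : NormedAddCommGroup X) (_ : InnerProductSpace ℝ X)
    (_ : CompleteSpace X) (C : Set X),
    Convex ℝ C ∧ IsClosed C ∧ (qri C).Nonempty ∧ fri C = ∅ :=
  ⟨H, inferInstance, inferInstance, inferInstance, C, convex_C, isClosed_C, ⟨0, zero_mem_qri⟩,
    fri_eq_empty⟩

end Pool.Agent.Results.MP_98aad6_an.FriEmptyQriNonempty
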